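import Mathlib

-- merged part: Pool.Agent.Work.MP_4833ba_an.Hedge.Avg
section
set_option autoImplicit false

open Finset

namespace Pool.Agent.Work.MP_4833ba_an.Hedge

/-- linear functionals on real sequences -/
abbrev Fn := (ℕ → ℝ) →ₗ[ℝ] ℝ

/-- evaluation at a point -/
def ev (x : ℕ) : Fn := LinearMap.proj x

@[simp] theorem ev_apply (x : ℕ) (y : ℕ → ℝ) : ev x y = y x := rfl

/-- branching numbers -/
def NN (k v : ℕ) : ℕ := k ^ (v + k + 2)

theorem NN_pos {k : ℕ} (hk : 2 ≤ k) (v : ℕ) : 0 < NN k v := pow_pos (by omega) _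

theorem NN_mono {k : ℕ} (hk : 2 ≤ k) {v v' : ℕ} (h : v ≤ v') : NN k v ≤ NN k v' :=
  Nat.pow_le_pow_right (by omega) (by omega)

theorem NN_lt {k : ℕ} (hk : 2 ≤ k) {v v' : ℕ} (h : v < v') : k * NN k v ≤ NN k v' := by
  unfold NN
  rw [← pow_succ']
  exact Nat.pow_le_pow_right (by omega) (by omega)

/-- repeated averages of depth `r` on the interval from `lo` to `hi` -/
def Avg (k : ℕ) : ℕ → Fn → ℕ → ℕ → Prop
  | 0, μ, lo, hi => ∃ x, lo ≤ x ∧ x < hi ∧ μ = ev x
  | r + 1, μ, lo, hi => ∃ (ν : ℕ → Fn) (c : ℕ → ℕ), c 0 = lo ∧ Monotone c ∧ c (NN k lo) ≤ hi ∧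
      (∀ u, Avg k r (ν u) (c u) (c (u + 1))) ∧
      μ = ((NN k lo : ℝ))⁻¹ • ∑ u ∈ range (NN k lo), ν u

theorem Avg.lo_le {k r : ℕ} {μ : Fn} {lo hi : ℕ} (h : Avg k r μ lo hi) : lo ≤ hi := by
  cases r with
  | zero => obtain ⟨x, h1, h2, -⟩ := h; omega
  | succ r =>
    obtain ⟨ν, c, h0, hm, h1, -, -⟩ := h
    have := hm (Nat.zero_le (NN k lo))
    omega

theorem Avg.le_const {k : ℕ} (hk : 2 ≤ k) {r : ℕ} : ∀ {μ : Fn} {lo hi : ℕ}, Avg k r μ lo hi →
    ∀ {y : ℕ → ℝ} {A : ℝ}, (∀ t, lo ≤ t → t < hi → y t ≤ A) → μ y ≤ A := by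
  induction r with
  | zero =>
    rintro μ lo hi ⟨x, h1, h2, rfl⟩ y A hy
    exact hy x h1 h2
  | succ r ih =>
    rintro μ lo hi ⟨ν, c, h0, hm, h1, hν, rfl⟩ y A hy
    have hN : (0 : ℝ) < NN k lo := by exact_mod_cast NN_pos hk lo
    have hs : ∑ u ∈ range (NN k lo), ν u y ≤ ∑ _u ∈ range (NN k lo), A := by
      refine sum_le_sum fun u hu => ih (hν u) fun t ht1 ht2 => hy t ?_ ?_
      · have := hm (Nat.zero_le u); omega
      · have := hm (show u + 1 ≤ NN k lo from mem_range.1 hu); omega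
    rw [sum_const, card_range, nsmul_eq_mul] at hs
    rw [LinearMap.smul_apply, LinearMap.sum_apply, smul_eq_mul, inv_mul_le_iff₀ hN]
    exact hs

theorem Avg.mono_on {k : ℕ} (hk : 2 ≤ k) {r : ℕ} {μ : Fn} {lo hi : ℕ} (h : Avg k r μ lo hi)
    {y y' : ℕ → ℝ} {A : ℝ} (hy : ∀ t, lo ≤ t → t < hi → y t ≤ A + y' t) : μ y ≤ A + μ y' := by
  have := h.le_const hk (y := y - y') (A := A) fun t h1 h2 => by
    have := hy t h1 h2
    simp only [Pi.sub_apply]; linarith
  rw [map_sub] at this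
  linarith

theorem Avg.nonneg {k : ℕ} (hk : 2 ≤ k) {r : ℕ} {μ : Fn} {lo hi : ℕ} (h : Avg k r μ lo hi)
    {y : ℕ → ℝ} (hy : ∀ t, 0 ≤ y t) : 0 ≤ μ y := by
  have := h.mono_on hk (y := 0) (y' := y) (A := 0) fun t _ _ => by simpa using hy t
  simpa using this

/-- functions on which consecutive averages of depth `r` have total value at most two -/
def Small (k r : ℕ) (y : ℕ → ℝ) : Prop :=
  ∃ F : ℕ → ℝ, Monotone F ∧ (∀ t, 0 ≤ F t ∧ F t ≤ 2) ∧
    ∀ μ lo hi, Avg k r μ lo hi → μ y ≤ F hi - F lo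

theorem small_zero (k : ℕ) : Small k 0 0 :=
  ⟨0, monotone_const, fun _ => by simp, fun μ _ _ _ => by simp⟩

theorem ind_mono (v : ℕ) : Monotone (fun t : ℕ => if v < t then (1 : ℝ) else 0) := by
  intro a b hab
  dsimp only
  split_ifs with h1 h2
  · exact le_rfl
  · omega
  · exact zero_le_one
  · exact le_rfl

theorem small_single (k x : ℕ) : Small k 0 (Pi.single x 1) := by
  refine ⟨fun t => if x < t then 1 else 0, ind_mono x, fun t => ?_, ?_⟩
  · dsimp only; split_ifs <;> norm_num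
  · rintro μ lo hi ⟨p, h1, h2, rfl⟩
    rw [ev_apply]
    by_cases hp : p = x
    · subst hp
      simp [h2, not_lt.2 h1]
    · rw [Pi.single_eq_of_ne hp, sub_nonneg]
      exact ind_mono x (by omega)

theorem small_succ {k : ℕ} (hk : 2 ≤ k) {r v : ℕ} {ι : Type} (J : Finset ι) (ys : ι → ℕ → ℝ)
    (hJ : J.card ≤ NN k v) (hs : ∀ j ∈ J, Small k r (ys j)) {y : ℕ → ℝ} (h1 : ∀ t, y t ≤ 1)
    (h0 : ∀ t < v, y t ≤ 0) (hle : ∀ t, y t ≤ ∑ j ∈ J, ys j t) : Small k (r + 1) y := by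
  choose! F hFm hFb hF using hs
  have hN : (0 : ℝ) < NN k v := by exact_mod_cast NN_pos hk v
  have hG : Monotone (fun t => ∑ j ∈ J, F j t) := fun a b hab =>
    sum_le_sum fun j hj => hFm j hj hab
  have hc : (0 : ℝ) ≤ (2 * NN k v : ℝ)⁻¹ := by positivity
  refine ⟨fun t => (if v < t then 1 else 0) + (2 * NN k v : ℝ)⁻¹ * ∑ j ∈ J, F j t,
    (ind_mono v).add (hG.const_mul hc), fun t => ?_, ?_⟩
  · have a1 : 0 ≤ ∑ j ∈ J, F j t := sum_nonneg fun j hj => (hFb j hj t).1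
    have a2 : ∑ j ∈ J, F j t ≤ ∑ _j ∈ J, (2 : ℝ) := sum_le_sum fun j hj => (hFb j hj t).2
    rw [sum_const, nsmul_eq_mul] at a2
    have a3 : (J.card : ℝ) ≤ NN k v := by exact_mod_cast hJ
    have a4 : (2 * NN k v : ℝ)⁻¹ * ∑ j ∈ J, F j t ≤ 1 := by
      rw [inv_mul_le_iff₀ (by positivity)]; linarith
    have a5 := mul_nonneg hc a1
    dsimp only
    split_ifs <;> constructor <;> linarith
  · intro μ lo hi hμ
    have b1 : (if v < lo then (1 : ℝ) else 0) ≤ if v < hi then 1 else 0 := ind_mono v hμ.lo_le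
    have b2 : ∑ j ∈ J, F j lo ≤ ∑ j ∈ J, F j hi := hG hμ.lo_le
    have b3 := mul_le_mul_of_nonneg_left b2 hc
    dsimp only
    by_cases hhi : hi ≤ v
    · have := hμ.le_const hk (y := y) (A := 0) fun t _ h => h0 t (by omega)
      linarith
    by_cases hlo : lo ≤ v
    · have := hμ.le_const hk (y := y) (A := 1) fun t _ _ => h1 t
      rw [if_pos (by omega), if_neg (by omega)]
      linarith
    obtain ⟨ν, c, hc0, hm, hc1, hν, rfl⟩ := hμ
    have hN' : (2 * NN k v : ℝ) ≤ NN k lo := by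
      have := NN_lt hk (show v < lo by omega)
      have h2 : 2 * NN k v ≤ NN k lo := le_trans (Nat.mul_le_mul_right _ hk) this
      exact_mod_cast h2
    have d1 : ∑ u ∈ range (NN k lo), ν u y ≤
        ∑ u ∈ range (NN k lo), ((fun t => ∑ j ∈ J, F j t) (c (u + 1)) -
          (fun t => ∑ j ∈ J, F j t) (c u)) := by
      refine sum_le_sum fun u _ => ?_
      have e1 := (hν u).mono_on hk (y := y) (y' := ∑ j ∈ J, ys j) (A := 0) fun t _ _ => by
        rw [zero_add, Finset.sum_apply]; exact hle t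
      rw [zero_add, map_sum] at e1
      dsimp only
      rw [← sum_sub_distrib]
      exact e1.trans (sum_le_sum fun j hj => hF j hj _ _ _ (hν u))
    rw [sum_range_sub (fun u => (fun t => ∑ j ∈ J, F j t) (c u)), hc0] at d1
    have d2 : ∑ j ∈ J, F j (c (NN k lo)) ≤ ∑ j ∈ J, F j hi := hG hc1
    have d3 : ∑ u ∈ range (NN k lo), ν u y ≤ ∑ j ∈ J, F j hi - ∑ j ∈ J, F j lo := by
      dsimp only at d1; linarith
    have d4 : (NN k lo : ℝ)⁻¹ ≤ (2 * NN k v : ℝ)⁻¹ := inv_anti₀ (by positivity) hN'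
    rw [LinearMap.smul_apply, LinearMap.sum_apply, smul_eq_mul]
    have d5 := mul_le_mul_of_nonneg_left d3 (show (0 : ℝ) ≤ (NN k lo : ℝ)⁻¹ by positivity)
    have d6 := mul_le_mul_of_nonneg_right d4 (sub_nonneg.2 b2)
    rw [mul_sub ((2 * NN k v : ℝ)⁻¹)] at d6
    linarith

theorem Small.mono {k : ℕ} (hk : 2 ≤ k) {r r' : ℕ} {y : ℕ → ℝ} (h : Small k r y)
    (h1 : ∀ t, y t ≤ 1) (hr : r ≤ r') : Small k r' y := by
  induction hr with
  | refl => exact h
  | step _ ih =>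
    refine small_succ hk (v := 0) ({()} : Finset Unit) (fun _ => y) ?_ (fun _ _ => ih) h1
      (fun t ht => absurd ht (Nat.not_lt_zero t)) (fun t => by simp)
    rw [card_singleton]
    exact NN_pos hk 0

theorem Small.sum_le {k j : ℕ} {y : ℕ → ℝ} (h : Small k j y) {w : ℕ → ℕ} {μ : ℕ → Fn}
    {c : ℕ → ℕ} (hm : Monotone c) (hμ : ∀ u, Avg k (w u) (μ u) (c u) (c (u + 1))) (N : ℕ) :
    ∑ u ∈ (range N).filter (fun u => w u = j), μ u y ≤ 2 := by
  obtain ⟨F, hFm, hFb, hF⟩ := h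
  have h1 : ∑ u ∈ (range N).filter (fun u => w u = j), μ u y ≤
      ∑ u ∈ range N, (F (c (u + 1)) - F (c u)) := by
    rw [sum_filter]
    refine sum_le_sum fun u _ => ?_
    split_ifs with hu
    · exact hF _ _ _ (hu ▸ hμ u)
    · exact sub_nonneg.2 (hFm (hm (Nat.le_succ u)))
  rw [sum_range_sub (fun u => F (c u))] at h1
  linarith [(hFb (c N)).2, (hFb (c 0)).1]

theorem sum_le_two_mul {k : ℕ} {T : ℕ → ℕ → ℝ} (hT : ∀ i < k, Small k i (T i)) {w : ℕ → ℕ}
    (hw : ∀ u, w u < k) {μ : ℕ → Fn} {c : ℕ → ℕ} (hm : Monotone c)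
    (hμ : ∀ u, Avg k (w u) (μ u) (c u) (c (u + 1))) (N : ℕ) :
    ∑ u ∈ range N, μ u (T (w u)) ≤ 2 * k := by
  rw [← sum_fiberwise_of_maps_to (s := range N) (t := range k) (g := w)
    (fun u _ => mem_range.2 (hw u))]
  have : ∀ i ∈ range k, ∑ u ∈ (range N).filter (fun u => w u = i), μ u (T (w u)) ≤ 2 := by
    intro i hi
    rw [sum_congr rfl (g := fun u => μ u (T i)) fun u hu => by rw [(mem_filter.1 hu).2]]
    exact (hT i (mem_range.1 hi)).sum_le hm hμ N
  have h2 := sum_le_sum this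
  rw [sum_const, card_range, nsmul_eq_mul] at h2
  linarith

/-- zero-one functions supported in consecutive intervals inside `M` -/
def Supp (M : Set ℕ) (s : ℕ → ℝ) (lo hi : ℕ) : Prop :=
  ∀ t, s t = 0 ∨ (s t = 1 ∧ lo ≤ t ∧ t < hi ∧ t ∈ M)

theorem Supp.nonneg {M : Set ℕ} {s : ℕ → ℝ} {lo hi : ℕ} (h : Supp M s lo hi) (t : ℕ) :
    0 ≤ s t := by
  rcases h t with h | h
  · exact h.ge
  · rw [h.1]; exact zero_le_one

theorem Supp.le_one {M : Set ℕ} {s : ℕ → ℝ} {lo hi : ℕ} (h : Supp M s lo hi) (t : ℕ) :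
    s t ≤ 1 := by
  rcases h t with h | h
  · rw [h]; exact zero_le_one
  · exact h.1.le

theorem sum_supp {M : Set ℕ} {s : ℕ → ℕ → ℝ} {c : ℕ → ℕ} (hm : Monotone c)
    (hs : ∀ u, Supp M (s u) (c u) (c (u + 1))) (A : Finset ℕ) (b : ℕ → ℝ) (t : ℕ) :
    ∑ u ∈ A, b u * s u t = 0 ∨ ∃ u ∈ A, ∑ u ∈ A, b u * s u t = b u ∧ s u t = 1 ∧
      c u ≤ t ∧ t < c (u + 1) ∧ t ∈ M := by
  by_cases h : ∀ u ∈ A, s u t = 0
  · exact Or.inl (sum_eq_zero fun u hu => by rw [h u hu, mul_zero])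
  push Not at h
  obtain ⟨u, hu, hu0⟩ := h
  obtain ⟨e1, e2, e3, e4⟩ := (hs u t).resolve_left hu0
  refine Or.inr ⟨u, hu, ?_, e1, e2, e3, e4⟩
  rw [sum_eq_single_of_mem u hu, e1, mul_one]
  intro u' _ hne
  rcases hs u' t with h' | ⟨-, f2, f3, -⟩
  · rw [h', mul_zero]
  · exfalso
    rcases lt_or_gt_of_ne hne with hlt | hlt
    · have := hm (show u' + 1 ≤ u from hlt); omega
    · have := hm (show u + 1 ≤ u' from hlt); omega

theorem sum_supp_one {M : Set ℕ} {s : ℕ → ℕ → ℝ} {c : ℕ → ℕ} (hm : Monotone c)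
    (hs : ∀ u, Supp M (s u) (c u) (c (u + 1))) (A : Finset ℕ) (t : ℕ) :
    (∑ u ∈ A, s u) t = 0 ∨ ∃ u ∈ A, (∑ u ∈ A, s u) t = 1 ∧
      c u ≤ t ∧ t < c (u + 1) ∧ t ∈ M := by
  have := sum_supp hm hs A (fun _ => 1) t
  simp only [one_mul] at this
  rw [Finset.sum_apply]
  rcases this with h | ⟨u, hu, h1, -, h2⟩
  · exact Or.inl h
  · exact Or.inr ⟨u, hu, h1, h2⟩

/-- an average together with a small function of full value -/
def Good (k : ℕ) (M : Set ℕ) (r lo : ℕ) (μ : Fn) (hi : ℕ) (s : ℕ → ℝ) : Prop :=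
  Avg k r μ lo hi ∧ Small k r s ∧ 1 ≤ μ s ∧ Supp M s lo hi

theorem chain {k : ℕ} {M : Set ℕ} {w : ℕ → ℕ}
    (h : ∀ u lo, ∃ μ hi s, Good k M (w u) lo μ hi s) (lo : ℕ) :
    ∃ (ν : ℕ → Fn) (c : ℕ → ℕ) (s : ℕ → ℕ → ℝ), c 0 = lo ∧ Monotone c ∧
      ∀ u, Good k M (w u) (c u) (ν u) (c (u + 1)) (s u) := by
  choose μ hi s H using h
  let c : ℕ → ℕ := fun n => Nat.rec lo (fun u cu => hi u cu) n
  refine ⟨fun u => μ u (c u), c, fun u => s u (c u), rfl, ?_, fun u => H u (c u)⟩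
  exact monotone_nat_of_le_succ fun u => (H u (c u)).1.lo_le

theorem exists_good {k : ℕ} (hk : 2 ≤ k) {M : Set ℕ} (hM : ∀ lo, ∃ x ∈ M, lo ≤ x) (r : ℕ) :
    ∀ lo, ∃ μ hi s, Good k M r lo μ hi s := by
  induction r with
  | zero =>
    intro lo
    obtain ⟨x, hx, h⟩ := hM lo
    refine ⟨ev x, x + 1, Pi.single x 1, ⟨x, h, by omega, rfl⟩, small_single k x, by simp,
      fun t => ?_⟩
    by_cases ht : t = x
    · subst ht; exact Or.inr ⟨by simp, h, by omega, hx⟩
    · exact Or.inl (Pi.single_eq_of_ne ht _)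
  | succ r ih =>
    intro lo
    obtain ⟨ν, c, s, h0, hm, H⟩ := chain (w := fun _ => r) (fun _ lo => ih lo) lo
    have hs : ∀ u, Supp M (s u) (c u) (c (u + 1)) := fun u => (H u).2.2.2
    have hS : Supp M (∑ u ∈ range (NN k lo), s u) lo (c (NN k lo)) := by
      intro t
      rcases sum_supp_one hm hs (range (NN k lo)) t with h | ⟨u, hu, h1, h2, h3, h4⟩
      · exact Or.inl h
      · refine Or.inr ⟨h1, ?_, ?_, h4⟩
        · have := hm (Nat.zero_le u); omega
        · have := hm (show u + 1 ≤ NN k lo from mem_range.1 hu); omega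
    refine ⟨_, c (NN k lo), ∑ u ∈ range (NN k lo), s u,
      ⟨ν, c, h0, hm, le_rfl, fun u => (H u).1, rfl⟩, ?_, ?_, hS⟩
    · refine small_succ hk (v := lo) (range (NN k lo)) s (card_range _).le
        (fun u _ => (H u).2.1) hS.le_one (fun t ht => ?_) (fun t => (Finset.sum_apply _ _ _).le)
      rcases hS t with h | h
      · exact h.le
      · omega
    · have hN : (0 : ℝ) < NN k lo := by exact_mod_cast NN_pos hk lo
      have h1 : ∑ _u ∈ range (NN k lo), (1 : ℝ) ≤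
          ∑ u ∈ range (NN k lo), ν u (∑ u ∈ range (NN k lo), s u) := by
        refine sum_le_sum fun u hu => (H u).2.2.1.trans ?_
        have := (H u).1.mono_on hk (y := s u) (y' := ∑ u ∈ range (NN k lo), s u) (A := 0)
          fun t _ _ => by
            rw [zero_add, Finset.sum_apply]
            exact single_le_sum (f := fun u => s u t) (fun u _ => (hs u).nonneg t) hu
        rwa [zero_add] at this
      rw [sum_const, card_range, nsmul_eq_mul] at h1
      rw [LinearMap.smul_apply, LinearMap.sum_apply, smul_eq_mul, le_inv_mul_iff₀ hN]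
      exact h1

end Pool.Agent.Work.MP_4833ba_an.Hedge
end

-- merged part: Pool.Agent.Work.MP_4833ba_an.Hedge.Count
section
set_option autoImplicit false

open Finset

namespace Pool.Agent.Work.MP_4833ba_an.Hedge

/-- the periodic word of scale `k ^ l` on `k` letters -/
def word (k l u : ℕ) : ℕ := u / k ^ l % k

theorem word_lt {k : ℕ} (hk : 2 ≤ k) (l u : ℕ) : word k l u < k := Nat.mod_lt _ (by omega)

/-- block `u` of the first system and block `g` of the second carry one letter and meet -/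
def Rel (k l m : ℕ) (c d : ℕ → ℕ) (u g : ℕ) : Prop :=
  word k l u = word k m g ∧ ∃ t, c u ≤ t ∧ t < c (u + 1) ∧ d g ≤ t ∧ t < d (g + 1)

open Classical in
theorem count_rel {k l m P : ℕ} (hk : 2 ≤ k) (hlm : l < m) (hP : k ^ l ≤ P) {c d : ℕ → ℕ}
    (hc : Monotone c) (hd : Monotone d) :
    ((range (k * P)).filter (fun u => ∃ g < k * P, Rel k l m c d u g)).card ≤ 3 * P := by
  set A := (range (k * P)).filter (fun u => ∃ g < k * P, Rel k l m c d u g) with hA
  have hex : ∀ u ∈ A, ∃ g < k * P, Rel k l m c d u g := fun u hu => (mem_filter.1 hu).2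
  choose! g hg hR using hex
  have hq : 0 < k ^ l := pow_pos (by omega) _
  have hgm : ∀ u ∈ A, ∀ u' ∈ A, u < u' → g u ≤ g u' := by
    intro u hu u' hu' hlt
    obtain ⟨-, t, a1, a2, a3, a4⟩ := hR u hu
    obtain ⟨-, t', b1, b2, b3, b4⟩ := hR u' hu'
    by_contra hcon
    have e1 := hc (show u + 1 ≤ u' from hlt)
    have e2 := hd (show g u' + 1 ≤ g u by omega)
    omega
  have key : ∀ u ∈ A, ∀ u' ∈ A, u < u' →
      (u / k ^ l / k + g u / k ^ m) * k ^ l + u % k ^ l ≠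
        (u' / k ^ l / k + g u' / k ^ m) * k ^ l + u' % k ^ l := by
    intro u hu u' hu' hlt heq
    have m1 : u % k ^ l = u' % k ^ l := by
      have := congrArg (· % k ^ l) heq
      simpa [Nat.add_mod, Nat.mul_mod_left] using this
    have m2 : u / k ^ l / k + g u / k ^ m = u' / k ^ l / k + g u' / k ^ m := by
      rw [m1] at heq
      exact Nat.eq_of_mul_eq_mul_right hq (Nat.add_right_cancel heq)
    have m3 : u / k ^ l / k ≤ u' / k ^ l / k :=
      Nat.div_le_div_right (Nat.div_le_div_right hlt.le)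
    have m4 : g u / k ^ m ≤ g u' / k ^ m := Nat.div_le_div_right (hgm u hu u' hu' hlt)
    have m5 : u / k ^ l / k = u' / k ^ l / k := by omega
    have m6 : g u / k ^ m = g u' / k ^ m := by omega
    have m7 : u / k ^ l % k = u' / k ^ l % k := by
      have f1 := (hR u hu).1
      have f2 := (hR u' hu').1
      unfold word at f1 f2
      rw [f1, f2, m6]
    have m8 : u / k ^ l = u' / k ^ l := by
      rw [← Nat.div_add_mod (u / k ^ l) k, ← Nat.div_add_mod (u' / k ^ l) k, m5, m7]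
    have m9 : u = u' := by
      rw [← Nat.div_add_mod u (k ^ l), ← Nat.div_add_mod u' (k ^ l), m8, m1]
    omega
  rw [← card_range (3 * P)]
  refine card_le_card_of_injOn
    (fun u => (u / k ^ l / k + g u / k ^ m) * k ^ l + u % k ^ l) (fun u hu => ?_) ?_
  · have hu' : u ∈ A := hu
    have h1 : u < k * P := mem_range.1 (mem_filter.1 hu').1
    have h2 : g u < k * P := hg u hu'
    have h3 : u / k ^ l / k * k ^ l < P := by
      refine Nat.lt_of_mul_lt_mul_left (a := k) (lt_of_le_of_lt ?_ h1)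
      calc k * (u / k ^ l / k * k ^ l) = (u / k ^ l / k * k) * k ^ l := by ring
        _ ≤ (u / k ^ l) * k ^ l := Nat.mul_le_mul_right _ (Nat.div_mul_le_self _ _)
        _ ≤ u := Nat.div_mul_le_self _ _
    have h4 : g u / k ^ m * k ^ l < P := by
      refine Nat.lt_of_mul_lt_mul_left (a := k) (lt_of_le_of_lt ?_ h2)
      have : k * k ^ l ≤ k ^ m := by
        rw [← pow_succ']; exact Nat.pow_le_pow_right (by omega) hlm
      calc k * (g u / k ^ m * k ^ l) = g u / k ^ m * (k * k ^ l) := by ring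
        _ ≤ g u / k ^ m * k ^ m := Nat.mul_le_mul_left _ this
        _ ≤ g u := Nat.div_mul_le_self _ _
    have h5 : u % k ^ l < k ^ l := Nat.mod_lt _ hq
    simp only [coe_range, Set.mem_Iio, add_mul]
    omega
  · intro u hu u' hu' heq
    rcases lt_trichotomy u u' with h | h | h
    · exact absurd heq (key u hu u' hu' h)
    · exact h
    · exact absurd heq.symm (key u' hu' u hu h)

end Pool.Agent.Work.MP_4833ba_an.Hedge
end

-- merged part: Pool.Agent.Work.MP_4833ba_an.Hedge.Estimate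
section
set_option autoImplicit false

open Finset

namespace Pool.Agent.Work.MP_4833ba_an.Hedge

/-- two heads and a sequence of consecutive averages along the word of the first head -/
structure Data (k : ℕ) : Type where
  l : ℕ
  n : ℕ
  c : ℕ → ℕ
  μ : ℕ → Fn
  hl : l < n
  hc : n < c 0
  mono : Monotone c
  avg : ∀ u, Avg k (word k l u) (μ u) (c u) (c (u + 1))

variable {k : ℕ}

/-- the bulk of a norming functional -/
noncomputable def Data.bulk (D : Data k) : Fn :=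
  ((NN k D.n : ℝ))⁻¹ • ∑ u ∈ range (NN k D.n), ((k : ℝ) ^ (word k D.l u + 1)) • D.μ u

theorem Data.bulk_apply (D : Data k) (y : ℕ → ℝ) : D.bulk y =
    ((NN k D.n : ℝ))⁻¹ * ∑ u ∈ range (NN k D.n), (k : ℝ) ^ (word k D.l u + 1) * D.μ u y := by
  simp only [Data.bulk, LinearMap.smul_apply, LinearMap.sum_apply, smul_eq_mul]

/-- a norming functional -/
noncomputable def Data.fn (D : Data k) : Fn := ev D.l + ev D.n + D.bulk

theorem Data.fn_apply (D : Data k) (y : ℕ → ℝ) : D.fn y = y D.l + y D.n + D.bulk y := rfl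

theorem pow_word_le (hk : 2 ≤ k) (l u : ℕ) : (k : ℝ) ^ (word k l u + 1) ≤ (k : ℝ) ^ k := by
  have h1 : (1 : ℝ) ≤ k := by exact_mod_cast (show 1 ≤ k by omega)
  exact pow_le_pow_right₀ h1 (word_lt hk l u)

theorem Data.bulk_le (hk : 2 ≤ k) (D : Data k) {y : ℕ → ℝ} {A : ℝ} (hA : 0 ≤ A)
    (hy : ∀ t, D.c 0 ≤ t → y t ≤ A) : D.bulk y ≤ (k : ℝ) ^ k * A := by
  have hN : (0 : ℝ) < NN k D.n := by exact_mod_cast NN_pos hk D.n
  have h1 : ∑ u ∈ range (NN k D.n), (k : ℝ) ^ (word k D.l u + 1) * D.μ u y ≤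
      ∑ _u ∈ range (NN k D.n), (k : ℝ) ^ k * A := by
    refine sum_le_sum fun u _ => ?_
    have h2 : D.μ u y ≤ A := (D.avg u).le_const hk fun t ht _ =>
      hy t ((D.mono (Nat.zero_le u)).trans ht)
    calc _ ≤ (k : ℝ) ^ (word k D.l u + 1) * A := mul_le_mul_of_nonneg_left h2 (by positivity)
      _ ≤ _ := mul_le_mul_of_nonneg_right (pow_word_le hk _ _) hA
  rw [sum_const, card_range, nsmul_eq_mul] at h1
  rw [D.bulk_apply, inv_mul_le_iff₀ hN]
  exact h1

theorem Data.bulk_nonneg (hk : 2 ≤ k) (D : Data k) {y : ℕ → ℝ} (hy : ∀ t, 0 ≤ y t) :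
    0 ≤ D.bulk y := by
  have := D.bulk_le hk (y := -y) le_rfl fun t _ => by simpa using hy t
  rw [map_neg] at this
  linarith

theorem err_le (hk : 2 ≤ k) (n : ℕ) :
    ((NN k n : ℝ))⁻¹ * ((k : ℝ) ^ k * (2 * k)) ≤ 2 / k := by
  have hN : (0 : ℝ) < NN k n := by exact_mod_cast NN_pos hk n
  have hk0 : (0 : ℝ) < k := by exact_mod_cast (show 0 < k by omega)
  have h1 : (k : ℝ) ^ (k + 2) ≤ NN k n := by
    have : k ^ (k + 2) ≤ NN k n := Nat.pow_le_pow_right (by omega) (by omega)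
    exact_mod_cast this
  rw [inv_mul_le_iff₀ hN, mul_div_assoc', le_div_iff₀ hk0]
  have : (k : ℝ) ^ (k + 2) = (k : ℝ) ^ k * k * k := by ring
  nlinarith

theorem Data.upgrade (hk : 2 ≤ k) (D : Data k) {T : ℕ → ℕ → ℝ} (hT : ∀ i < k, Small k i (T i)) :
    ((NN k D.n : ℝ))⁻¹ * ((k : ℝ) ^ k * ∑ u ∈ range (NN k D.n), D.μ u (T (word k D.l u))) ≤
      2 / k := by
  refine le_trans ?_ (err_le hk D.n)
  have := sum_le_two_mul hT (word_lt hk D.l) D.mono D.avg (NN k D.n)
  gcongr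

theorem single_le_one (x t : ℕ) : (Pi.single x 1 : ℕ → ℝ) t ≤ 1 := by
  by_cases h : t = x
  · subst h; simp
  · simp [h]

theorem single_nonneg (x t : ℕ) : 0 ≤ (Pi.single x 1 : ℕ → ℝ) t := by
  by_cases h : t = x
  · subst h; simp
  · simp [h]

theorem Data.bulk_single (hk : 2 ≤ k) (D : Data k) (x : ℕ) :
    D.bulk (Pi.single x 1) ≤ 2 / k := by
  refine le_trans ?_ (D.upgrade hk (T := fun _ => Pi.single x 1) fun i _ =>
    (small_single k x).mono hk (single_le_one x) (Nat.zero_le i))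
  rw [D.bulk_apply, mul_sum _ _ ((k : ℝ) ^ k)]
  refine mul_le_mul_of_nonneg_left (sum_le_sum fun u _ => ?_) (by positivity)
  exact mul_le_mul_of_nonneg_right (pow_word_le hk _ _) ((D.avg u).nonneg hk (single_nonneg x))

theorem Data.fn_nonneg (hk : 2 ≤ k) (D : Data k) {y : ℕ → ℝ} (hy : ∀ t, 0 ≤ y t) :
    0 ≤ D.fn y := by
  rw [D.fn_apply]
  linarith [hy D.l, hy D.n, D.bulk_nonneg hk hy]

theorem Data.fn_single (hk : 2 ≤ k) (D : Data k) (x : ℕ) : D.fn (Pi.single x 1) ≤ 1 := by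
  rw [D.fn_apply]
  have hl := D.hl
  have hc := D.hc
  by_cases hx : x < D.c 0
  · have h1 := D.bulk_le hk (y := Pi.single x 1) le_rfl fun t ht => by
      rw [Pi.single_eq_of_ne (show t ≠ x by omega)]
    rw [mul_zero] at h1
    by_cases h : D.l = x
    · rw [Pi.single_eq_of_ne (show D.n ≠ x by omega)]
      linarith [single_le_one x D.l]
    · rw [Pi.single_eq_of_ne h]
      linarith [single_le_one x D.n]
  · rw [Pi.single_eq_of_ne (show D.n ≠ x by omega), Pi.single_eq_of_ne (show D.l ≠ x by omega)]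
    have h2 : (2 : ℝ) ≤ k := by exact_mod_cast hk
    have h3 : (2 : ℝ) / k ≤ 1 := by rw [div_le_one (by linarith)]; exact h2
    linarith [D.bulk_single hk x]

theorem Data.fn_le (hk : 2 ≤ k) (D : Data k) {y : ℕ → ℝ} (hy : ∀ t, |y t| ≤ 1) :
    |D.fn y| ≤ 2 + (k : ℝ) ^ k := by
  have h1 := D.bulk_le hk (y := y) zero_le_one fun t _ => (abs_le.1 (hy t)).2
  have h2 := D.bulk_le hk (y := -y) zero_le_one fun t _ => by
    have := (abs_le.1 (hy t)).1
    simp only [Pi.neg_apply]; linarith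
  rw [map_neg] at h2
  rw [D.fn_apply, abs_le]
  have a1 := abs_le.1 (hy D.l)
  have a2 := abs_le.1 (hy D.n)
  constructor <;> linarith

/-- data with the small functions carried by the averages -/
structure Piece (k : ℕ) (M : Set ℕ) extends Data k where
  s : ℕ → ℕ → ℝ
  small : ∀ u, Small k (word k l u) (s u)
  full : ∀ u, 1 ≤ μ u (s u)
  supp : ∀ u, Supp M (s u) (c u) (c (u + 1))

variable {M : Set ℕ}

/-- the bulk of the test vector -/
noncomputable def Piece.z (P : Piece k M) : ℕ → ℝ :=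
  fun t => ∑ u ∈ range (NN k P.n), ((k : ℝ) ^ (word k P.l u + 1))⁻¹ * P.s u t

/-- the pieces with a given letter -/
noncomputable def Piece.same (P : Piece k M) (i : ℕ) : ℕ → ℝ :=
  ∑ u ∈ (range (NN k P.n)).filter (fun u => word k P.l u = i), P.s u

/-- the pieces with a smaller letter -/
noncomputable def Piece.low (P : Piece k M) (i : ℕ) : ℕ → ℝ :=
  ∑ u ∈ (range (NN k P.n)).filter (fun u => word k P.l u < i), P.s u

theorem Piece.sum_nonneg (P : Piece k M) (A : Finset ℕ) (t : ℕ) : 0 ≤ (∑ u ∈ A, P.s u) t := by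
  rcases sum_supp_one P.mono P.supp A t with h | ⟨_, _, h, _⟩ <;> rw [h]
  exact zero_le_one

theorem Piece.sum_le_one (P : Piece k M) (A : Finset ℕ) (t : ℕ) : (∑ u ∈ A, P.s u) t ≤ 1 := by
  rcases sum_supp_one P.mono P.supp A t with h | ⟨_, _, h, _⟩ <;> rw [h]
  exact zero_le_one

theorem Piece.one_le_sum (P : Piece k M) {A : Finset ℕ} {u t : ℕ} (hu : u ∈ A)
    (h : P.s u t = 1) : 1 ≤ (∑ u ∈ A, P.s u) t := by
  rw [Finset.sum_apply, ← h]
  exact single_le_sum (f := fun u => P.s u t) (fun u _ => (P.supp u).nonneg t) hu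

theorem Piece.small_low (hk : 2 ≤ k) (P : Piece k M) (i : ℕ) : Small k i (P.low i) := by
  cases i with
  | zero =>
    have : P.low 0 = 0 := by simp [Piece.low]
    rw [this]; exact small_zero k
  | succ j =>
    refine small_succ hk (v := P.c 0) _ P.s ?_ (fun u hu => ?_) (P.sum_le_one _) (fun t ht => ?_)
      (fun t => (Finset.sum_apply _ _ _).le)
    · exact (card_filter_le _ _).trans ((card_range _).le.trans (NN_mono hk P.hc.le))
    · exact (P.small u).mono hk (P.supp u).le_one (Nat.lt_succ_iff.1 (mem_filter.1 hu).2)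
    · rcases sum_supp_one P.mono P.supp _ t with h | ⟨u, _, _, h, _⟩
      · exact h.le
      · have := P.mono (Nat.zero_le u); omega

theorem Piece.z_cases (P : Piece k M) (t : ℕ) : P.z t = 0 ∨ ∃ u ∈ range (NN k P.n),
    P.z t = ((k : ℝ) ^ (word k P.l u + 1))⁻¹ ∧ P.s u t = 1 ∧ P.c u ≤ t ∧ t < P.c (u + 1) ∧
      t ∈ M :=
  sum_supp P.mono P.supp _ _ t

theorem Piece.z_nonneg (P : Piece k M) (t : ℕ) : 0 ≤ P.z t := by
  rcases P.z_cases t with h | ⟨u, _, h, _⟩ <;> rw [h]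
  positivity

theorem Piece.z_le (hk : 2 ≤ k) (P : Piece k M) (t : ℕ) : P.z t ≤ 1 / k := by
  have h1 : (1 : ℝ) ≤ k := by exact_mod_cast (show 1 ≤ k by omega)
  rcases P.z_cases t with h | ⟨u, _, h, _⟩ <;> rw [h]
  · positivity
  · rw [one_div]
    exact inv_anti₀ (by positivity) (le_self_pow₀ h1 (by omega))

theorem Piece.z_low (P : Piece k M) {t : ℕ} (ht : t < P.c 0) : P.z t = 0 := by
  rcases P.z_cases t with h | ⟨u, _, _, _, h, _⟩
  · exact h
  · have := P.mono (Nat.zero_le u); omega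

theorem Piece.pointwise (hk : 2 ≤ k) (P : Piece k M) {i : ℕ} (hi : i < k) (t : ℕ) :
    (k : ℝ) ^ (i + 1) * P.z t ≤ 1 / k + ((k : ℝ) ^ k * P.low i t + P.same i t) := by
  have h1 : (1 : ℝ) ≤ k := by exact_mod_cast (show 1 ≤ k by omega)
  have a1 : 0 ≤ (k : ℝ) ^ k * P.low i t := mul_nonneg (by positivity) (P.sum_nonneg _ t)
  have a2 : 0 ≤ P.same i t := P.sum_nonneg _ t
  have a3 : (0 : ℝ) ≤ 1 / k := by positivity
  rcases P.z_cases t with h | ⟨u, hu, h, hs, _⟩ <;> rw [h]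
  · linarith
  rcases lt_trichotomy (word k P.l u) i with hlt | heq | hgt
  · have b1 : 1 ≤ P.low i t := P.one_le_sum (mem_filter.2 ⟨hu, hlt⟩) hs
    have b2 : ((k : ℝ) ^ (word k P.l u + 1))⁻¹ ≤ 1 := inv_le_one_of_one_le₀ (one_le_pow₀ h1)
    have b3 : (k : ℝ) ^ (i + 1) ≤ (k : ℝ) ^ k := pow_le_pow_right₀ h1 hi
    have b4 : (k : ℝ) ^ (i + 1) * ((k : ℝ) ^ (word k P.l u + 1))⁻¹ ≤ (k : ℝ) ^ k * P.low i t :=
      mul_le_mul b3 (b2.trans b1) (by positivity) (by positivity)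
    linarith
  · have b1 : 1 ≤ P.same i t := P.one_le_sum (mem_filter.2 ⟨hu, heq⟩) hs
    rw [heq, mul_inv_cancel₀ (by positivity)]
    linarith
  · have b1 : (k : ℝ) ^ (i + 1) * ((k : ℝ) ^ (word k P.l u + 1))⁻¹ ≤ 1 / k := by
      rw [← div_eq_mul_inv, div_le_div_iff₀ (by positivity) (by positivity), one_mul, ← pow_succ]
      exact pow_le_pow_right₀ h1 (by omega)
    linarith

/-- the same-letter interaction -/
noncomputable def inter (D : Data k) (P : Piece k M) : ℝ :=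
  ∑ u ∈ range (NN k D.n), D.μ u (P.same (word k D.l u))

theorem bulk_z (hk : 2 ≤ k) (D : Data k) (P : Piece k M) :
    D.bulk P.z ≤ 3 / k + ((NN k D.n : ℝ))⁻¹ * inter D P := by
  have hN : (0 : ℝ) < NN k D.n := by exact_mod_cast NN_pos hk D.n
  have h1 : ∑ u ∈ range (NN k D.n), (k : ℝ) ^ (word k D.l u + 1) * D.μ u P.z ≤
      ∑ u ∈ range (NN k D.n), (1 / k + ((k : ℝ) ^ k * D.μ u (P.low (word k D.l u)) +
        D.μ u (P.same (word k D.l u)))) := by
    refine sum_le_sum fun u _ => ?_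
    have := (D.avg u).mono_on hk (y := (k : ℝ) ^ (word k D.l u + 1) • P.z)
      (y' := (k : ℝ) ^ k • P.low (word k D.l u) + P.same (word k D.l u)) (A := 1 / k)
      fun t _ _ => P.pointwise hk (word_lt hk _ _) t
    rwa [map_add, map_smul, map_smul] at this
  rw [sum_add_distrib, sum_add_distrib, sum_const, card_range, nsmul_eq_mul, ← mul_sum] at h1
  have h2 := D.upgrade hk (T := P.low) fun i _ => P.small_low hk i
  have h3 := mul_le_mul_of_nonneg_left h1 (inv_nonneg.2 hN.le)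
  rw [mul_add, mul_add, ← mul_assoc, inv_mul_cancel₀ hN.ne', one_mul] at h3
  rw [D.bulk_apply, inter]
  have : (3 : ℝ) / k = 1 / k + 2 / k := by ring
  linarith

open Classical in
theorem inter_le_left (hk : 2 ≤ k) (D : Data k) (P : Piece k M) : inter D P ≤
    ((range (NN k D.n)).filter (fun u => ∃ g < NN k P.n, Rel k D.l P.l D.c P.c u g)).card := by
  rw [card_eq_sum_ones, Nat.cast_sum, sum_filter, inter]
  refine sum_le_sum fun u _ => (D.avg u).le_const hk fun t h1 h2 => ?_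
  split_ifs with h
  · rw [Nat.cast_one]; exact P.sum_le_one _ t
  · rcases sum_supp_one P.mono P.supp _ t with h' | ⟨g, hg, _, h3, h4, _⟩
    · exact h'.le
    · exact absurd ⟨g, mem_range.1 (mem_filter.1 hg).1, (mem_filter.1 hg).2.symm, t, h1, h2,
        h3, h4⟩ h

open Classical in
theorem inter_le_right (hk : 2 ≤ k) (D : Data k) (P : Piece k M) : inter D P ≤ 2 *
    ((range (NN k P.n)).filter (fun g => ∃ u < NN k D.n, Rel k P.l D.l P.c D.c g u)).card := by
  have h1 : inter D P = ∑ g ∈ range (NN k P.n),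
      ∑ u ∈ (range (NN k D.n)).filter (fun u => word k D.l u = word k P.l g), D.μ u (P.s g) := by
    unfold inter Piece.same
    simp only [map_sum, sum_filter]
    rw [sum_comm]
    refine sum_congr rfl fun g _ => sum_congr rfl fun u _ => ?_
    by_cases h : word k P.l g = word k D.l u
    · rw [if_pos h, if_pos h.symm]
    · rw [if_neg h, if_neg (Ne.symm h), map_zero]
  rw [h1, card_eq_sum_ones, Nat.cast_sum, sum_filter, mul_sum]
  refine sum_le_sum fun g _ => ?_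
  split_ifs with h
  · rw [Nat.cast_one, mul_one]
    exact (P.small g).sum_le D.mono D.avg _
  · rw [mul_zero]
    refine sum_nonpos fun u hu => (D.avg u).le_const hk fun t h1 h2 => ?_
    rcases P.supp g t with h' | ⟨_, h3, h4, _⟩
    · exact h'.le
    · exact absurd ⟨u, mem_range.1 (mem_filter.1 hu).1, (mem_filter.1 hu).2.symm, t, h3, h4,
        h1, h2⟩ h

theorem inter_one (hk : 2 ≤ k) (D : Data k) (P : Piece k M) :
    ((NN k D.n : ℝ))⁻¹ * inter D P ≤ 1 := by
  classical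
  have hN : (0 : ℝ) < NN k D.n := by exact_mod_cast NN_pos hk D.n
  rw [inv_mul_le_iff₀ hN, mul_one]
  refine (inter_le_left hk D P).trans ?_
  exact_mod_cast (card_filter_le _ _).trans (card_range _).le

theorem inter_later (hk : 2 ≤ k) (D : Data k) (P : Piece k M) (h : P.n < D.n) :
    ((NN k D.n : ℝ))⁻¹ * inter D P ≤ 2 / k := by
  classical
  have hN : (0 : ℝ) < NN k D.n := by exact_mod_cast NN_pos hk D.n
  have hk0 : (0 : ℝ) < k := by exact_mod_cast (show 0 < k by omega)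
  have h1 : inter D P ≤ 2 * NN k P.n := by
    refine (inter_le_right hk D P).trans (mul_le_mul_of_nonneg_left ?_ zero_le_two)
    exact_mod_cast (card_filter_le _ _).trans (card_range _).le
  have h2 : (k : ℝ) * NN k P.n ≤ NN k D.n := by exact_mod_cast NN_lt hk h
  rw [inv_mul_le_iff₀ hN, mul_div_assoc', le_div_iff₀ hk0]
  nlinarith

theorem inter_other (hk : 2 ≤ k) (D : Data k) (P : Piece k M) (hn : D.n = P.n)
    (hl : D.l ≠ P.l) : ((NN k D.n : ℝ))⁻¹ * inter D P ≤ 6 / k := by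
  classical
  have hN : (0 : ℝ) < NN k D.n := by exact_mod_cast NN_pos hk D.n
  have hk0 : (0 : ℝ) < k := by exact_mod_cast (show 0 < k by omega)
  have hNP : NN k P.n = k * k ^ (P.n + k + 1) := by unfold NN; ring
  have hPl := P.hl
  have hDl := D.hl
  have h1 : inter D P ≤ 6 * (k ^ (P.n + k + 1) : ℕ) := by
    rcases lt_or_gt_of_ne hl with h | h
    · have a1 := inter_le_left hk D P
      rw [hn, hNP] at a1
      have a2 := count_rel (P := k ^ (P.n + k + 1)) hk h
        (Nat.pow_le_pow_right (by omega) (by omega)) D.mono P.mono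
      have a3 := (Nat.cast_le (α := ℝ)).2 a2
      rw [Nat.cast_mul, Nat.cast_ofNat] at a3
      have a4 : (0 : ℝ) ≤ (k ^ (P.n + k + 1) : ℕ) := Nat.cast_nonneg _
      linarith
    · have a1 := inter_le_right hk D P
      rw [hn, hNP] at a1
      have a2 := count_rel (P := k ^ (P.n + k + 1)) hk h
        (Nat.pow_le_pow_right (by omega) (by omega)) P.mono D.mono
      have a3 := (Nat.cast_le (α := ℝ)).2 a2
      rw [Nat.cast_mul, Nat.cast_ofNat] at a3
      linarith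
  rw [inv_mul_le_iff₀ hN, mul_div_assoc', le_div_iff₀ hk0, hn, hNP, Nat.cast_mul]
  nlinarith

/-- the test vector without its first coordinate -/
noncomputable def Piece.tail (P : Piece k M) : ℕ → ℝ := Pi.single P.n 1 + P.z

/-- the test vector -/
noncomputable def Piece.vec (P : Piece k M) : ℕ → ℝ := P.tail - Pi.single P.l 1

theorem Piece.tail_nonneg (P : Piece k M) (t : ℕ) : 0 ≤ P.tail t :=
  add_nonneg (single_nonneg _ t) (P.z_nonneg t)

theorem Piece.tail_n (P : Piece k M) : P.tail P.n = 1 := by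
  simp [Piece.tail, P.z_low P.hc]

theorem Piece.tail_ne (P : Piece k M) {t : ℕ} (h : t ≠ P.n) : P.tail t = P.z t := by
  simp [Piece.tail, h]

theorem Piece.tail_l (P : Piece k M) : P.tail P.l = 0 := by
  rw [P.tail_ne P.hl.ne, P.z_low (P.hl.trans P.hc)]

theorem Piece.tail_le (hk : 2 ≤ k) (P : Piece k M) (t : ℕ) : P.tail t ≤ 1 := by
  by_cases h : t = P.n
  · rw [h, P.tail_n]
  · rw [P.tail_ne h]
    have h1 : (1 : ℝ) ≤ k := by exact_mod_cast (show 1 ≤ k by omega)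
    exact (P.z_le hk t).trans ((div_le_one (by linarith)).2 h1)

theorem Piece.vec_apply (P : Piece k M) (t : ℕ) :
    P.vec t = P.tail t - (Pi.single P.l 1 : ℕ → ℝ) t := rfl

theorem Piece.abs_vec (hk : 2 ≤ k) (P : Piece k M) (t : ℕ) : |P.vec t| ≤ 1 := by
  rw [P.vec_apply, abs_le]
  constructor <;>
    linarith [P.tail_nonneg t, P.tail_le hk t, single_le_one P.l t, single_nonneg P.l t]

theorem Piece.vec_ne (hk : 2 ≤ k) (P : Piece k M) {t : ℕ} (h : t ≠ P.n) : P.vec t ≤ 1 / k := by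
  rw [P.vec_apply, P.tail_ne h]
  linarith [P.z_le hk t, single_nonneg P.l t]

theorem fn_vec (hk : 2 ≤ k) (D : Data k) (P : Piece k M) : |D.fn P.vec| ≤ 1 + 12 / k := by
  have hk0 : (0 : ℝ) < 1 / k := by
    have : (0 : ℝ) < k := by exact_mod_cast (show 0 < k by omega)
    positivity
  have e2 : (2 : ℝ) / k = 2 * (1 / k) := by ring
  have e3 : (3 : ℝ) / k = 3 * (1 / k) := by ring
  have e6 : (6 : ℝ) / k = 6 * (1 / k) := by ring
  have e12 : (12 : ℝ) / k = 12 * (1 / k) := by ring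
  rw [abs_le]
  constructor
  · rw [Piece.vec, map_sub]
    linarith [D.fn_nonneg hk P.tail_nonneg, D.fn_single hk P.l]
  have hb : D.bulk P.vec ≤ 5 * (1 / k) + ((NN k D.n : ℝ))⁻¹ * inter D P := by
    rw [Piece.vec, Piece.tail, map_sub, map_add]
    linarith [D.bulk_nonneg hk (single_nonneg P.l), D.bulk_single hk P.n, bulk_z hk D P]
  rw [D.fn_apply]
  have hDl := D.hl
  have a1 := (abs_le.1 (P.abs_vec hk D.l)).2
  have a2 := (abs_le.1 (P.abs_vec hk D.n)).2
  by_cases h1 : D.n = P.n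
  · by_cases h2 : D.l = P.l
    · have : P.vec D.l = -1 := by rw [h2, P.vec_apply, P.tail_l]; simp
      linarith [inter_one hk D P]
    · linarith [inter_other hk D P h1 h2, P.vec_ne hk (show D.l ≠ P.n by omega)]
  · by_cases h2 : D.l = P.n
    · linarith [inter_later hk D P (by omega), P.vec_ne hk h1]
    · linarith [inter_one hk D P, P.vec_ne hk h1, P.vec_ne hk h2]

theorem fn_tail (hk : 2 ≤ k) (P : Piece k M) : 2 ≤ P.toData.fn P.tail := by
  have hN : (0 : ℝ) < NN k P.n := by exact_mod_cast NN_pos hk P.n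
  have hk0 : (0 : ℝ) < k := by exact_mod_cast (show 0 < k by omega)
  have h1 : ∑ _u ∈ range (NN k P.n), (1 : ℝ) ≤
      ∑ u ∈ range (NN k P.n), (k : ℝ) ^ (word k P.l u + 1) * P.μ u P.tail := by
    refine sum_le_sum fun u hu => ?_
    have h2 := (P.avg u).mono_on hk (y := ((k : ℝ) ^ (word k P.l u + 1))⁻¹ • P.s u)
      (y' := P.tail) (A := 0) fun t _ _ => by
        have : ((k : ℝ) ^ (word k P.l u + 1))⁻¹ * P.s u t ≤ P.z t :=
          single_le_sum (f := fun u => ((k : ℝ) ^ (word k P.l u + 1))⁻¹ * P.s u t)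
            (fun u _ => mul_nonneg (by positivity) ((P.supp u).nonneg t)) hu
        have h3 : P.tail t = (Pi.single P.n 1 : ℕ → ℝ) t + P.z t := rfl
        simp only [Pi.smul_apply, smul_eq_mul]
        linarith [single_nonneg P.n t]
    rw [map_smul, smul_eq_mul, zero_add, inv_mul_le_iff₀ (by positivity)] at h2
    exact (P.full u).trans h2
  rw [sum_const, card_range, nsmul_eq_mul, ← le_inv_mul_iff₀ hN] at h1
  rw [Data.fn_apply, Data.bulk_apply, P.tail_n, P.tail_l]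
  linarith

theorem exists_piece (hk : 2 ≤ k) (hM : ∀ lo, ∃ x ∈ M, lo ≤ x) {l n : ℕ} (h : l < n) :
    ∃ P : Piece k M, P.l = l ∧ P.n = n := by
  obtain ⟨ν, c, s, h0, hm, H⟩ := chain (w := word k l)
    (fun u lo => exists_good hk hM (word k l u) lo) (n + 1)
  exact ⟨⟨⟨l, n, c, ν, h, by omega, hm, fun u => (H u).1⟩, s, fun u => (H u).2.1,
    fun u => (H u).2.2.1, fun u => (H u).2.2.2⟩, rfl, rfl⟩

end Pool.Agent.Work.MP_4833ba_an.Hedge
end

-- merged part: Pool.Agent.Work.MP_4833ba_an.Hedge.Space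
section
set_option autoImplicit false

open Finset Filter Topology
open scoped ENNReal

namespace Pool.Agent.Work.MP_4833ba_an.Hedge

universe u

variable {k : ℕ}

/-- the norming family -/
noncomputable def fam (γ : ULift.{u} (ℕ ⊕ Data k)) : Fn :=
  γ.down.elim ev Data.fn

theorem fam_single (hk : 2 ≤ k) (γ : ULift.{u} (ℕ ⊕ Data k)) (i : ℕ) :
    |fam γ (Pi.single i 1)| ≤ 1 := by
  obtain ⟨j | D⟩ := γ
  · exact abs_le.2 ⟨(neg_nonpos.2 zero_le_one).trans (single_nonneg i j), single_le_one i j⟩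
  · exact abs_le.2 ⟨(neg_nonpos.2 zero_le_one).trans (D.fn_nonneg hk (single_nonneg i)),
      D.fn_single hk i⟩

theorem fam_le (hk : 2 ≤ k) (γ : ULift.{u} (ℕ ⊕ Data k)) {y : ℕ → ℝ} (hy : ∀ t, |y t| ≤ 1) :
    |fam γ y| ≤ 2 + (k : ℝ) ^ k := by
  obtain ⟨j | D⟩ := γ
  · have : (0 : ℝ) ≤ (k : ℝ) ^ k := by positivity
    exact (hy j).trans (by linarith)
  · exact D.fn_le hk hy

theorem fam_vec (hk : 2 ≤ k) (γ : ULift.{u} (ℕ ⊕ Data k)) {M : Set ℕ} (P : Piece k M) :
    |fam γ P.vec| ≤ 1 + 12 / k := by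
  obtain ⟨j | D⟩ := γ
  · have : (0 : ℝ) ≤ 12 / k := by positivity
    exact (P.abs_vec hk j).trans (by linarith)
  · exact fn_vec hk D P

/-- the space -/
abbrev Sp (k : ℕ) : Type u := lp (fun _ : ULift.{u} (ℕ ⊕ Data k) => ℝ) ∞

/-- the sequence -/
noncomputable def xs (hk : 2 ≤ k) (i : ℕ) : Sp.{u} k :=
  ⟨fun γ => fam γ (Pi.single i 1), memℓp_infty ⟨1, by
    rintro _ ⟨γ, rfl⟩
    exact fam_single hk γ i⟩⟩

theorem sum_xs_apply (hk : 2 ≤ k) (A : Finset ℕ) (a : ℕ → ℝ) (φ : ℕ → ℕ)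
    (γ : ULift.{u} (ℕ ⊕ Data k)) : (∑ i ∈ A, a i • xs.{u} hk (φ i)) γ =
      fam γ (∑ i ∈ A, a i • Pi.single (φ i) 1) := by
  rw [lp.coeFn_sum, Finset.sum_apply, map_sum]
  refine sum_congr rfl fun i _ => ?_
  rw [lp.coeFn_smul, map_smul]
  rfl

theorem norm_xs (hk : 2 ≤ k) (i : ℕ) : ‖xs.{u} hk i‖ = 1 := by
  refine le_antisymm (lp.norm_le_of_forall_le zero_le_one fun γ => fam_single hk γ i) ?_
  have := lp.norm_apply_le_norm ENNReal.top_ne_zero (xs.{u} hk i) ⟨Sum.inl i⟩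
  have h2 : (xs.{u} hk i) ⟨Sum.inl i⟩ = 1 := by
    show (Pi.single i 1 : ℕ → ℝ) i = 1
    simp
  rwa [h2, norm_one] at this

theorem sum_single_eq {A : Finset ℕ} {φ : ℕ → ℕ} (hφ : Function.Injective φ) {v : ℕ → ℝ}
    (hv : ∀ t, v t ≠ 0 → ∃ i ∈ A, φ i = t) :
    ∑ i ∈ A, v (φ i) • (Pi.single (φ i) 1 : ℕ → ℝ) = v := by
  funext t
  rw [Finset.sum_apply]
  by_cases h : ∃ i ∈ A, φ i = t
  · obtain ⟨i, hi, rfl⟩ := h
    rw [sum_eq_single_of_mem i hi]
    · simp
    · intro j _ hj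
      simp [Pi.single_eq_of_ne (fun h => hj (hφ h).symm : φ i ≠ φ j)]
  · have h0 : v t = 0 := by
      by_contra h0
      exact h (hv t h0)
    rw [h0]
    refine sum_eq_zero fun i hi => ?_
    have : t ≠ φ i := fun e => h ⟨i, hi, e.symm⟩
    simp [Pi.single_eq_of_ne this]

theorem xs_weakly_null (hk : 2 ≤ k) (f : Sp.{u} k →L[ℝ] ℝ) :
    Tendsto (fun n => f (xs.{u} hk n)) atTop (𝓝 0) := by
  have hs : Summable (fun n => |f (xs.{u} hk n)|) := by
    refine summable_of_sum_le (c := ‖f‖ * (2 + (k : ℝ) ^ k)) (fun n => abs_nonneg _) fun A => ?_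
    set a : ℕ → ℝ := fun n => if n ∈ A then (SignType.sign (f (xs.{u} hk n)) : ℝ) else 0 with ha
    have h1 : ∑ n ∈ A, |f (xs.{u} hk n)| = f (∑ n ∈ A, a n • xs.{u} hk (id n)) := by
      rw [map_sum]
      refine sum_congr rfl fun n hn => ?_
      rw [map_smul, ha]
      simp [hn, sign_mul_self]
    have h2 : ‖∑ n ∈ A, a n • xs.{u} hk (id n)‖ ≤ 2 + (k : ℝ) ^ k := by
      refine lp.norm_le_of_forall_le (by positivity) fun γ => ?_
      rw [sum_xs_apply]
      have h3 := sum_single_eq (A := A) (φ := id) Function.injective_id (v := a) fun t ht =>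
        ⟨t, by by_contra h; exact ht (by simp [ha, h]), rfl⟩
      have h4 : ∑ i ∈ A, a i • (Pi.single (id i) 1 : ℕ → ℝ) = a := h3
      rw [h4]
      refine fam_le hk γ fun t => ?_
      rw [ha]
      dsimp only
      split_ifs
      · rcases lt_trichotomy (f (xs.{u} hk t)) 0 with h | h | h
        · simp [sign_neg h]
        · simp [h]
        · simp [sign_pos h]
      · simp
    rw [h1]
    exact (le_abs_self _).trans ((f.le_opNorm _).trans
      (mul_le_mul_of_nonneg_left h2 (norm_nonneg f)))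
  exact (tendsto_zero_iff_abs_tendsto_zero _).2 hs.tendsto_atTop_zero

theorem exists_bad (hk : 2 ≤ k) {φ : ℕ → ℕ} (hφ : StrictMono φ) :
    ∃ (m : ℕ) (a : ℕ → ℝ) (G : Finset ℕ), (∀ i, |a i| ≤ 1) ∧
      (∀ i ∈ G, i ≤ m ∧ ((k : ℝ) ^ k)⁻¹ ≤ |a i|) ∧
      ‖∑ i ∈ range (m + 1), a i • xs.{u} hk (φ i)‖ ≤ 1 + 12 / k ∧
      2 ≤ ‖∑ i ∈ G, a i • xs.{u} hk (φ i)‖ := by
  obtain ⟨P, hl, hn⟩ := exists_piece (M := Set.range φ) hk
    (fun lo => ⟨φ lo, ⟨lo, rfl⟩, hφ.id_le lo⟩) (hφ (show 0 < 1 by norm_num))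
  set m := P.c (NN k P.n) with hm
  have hk1 : (1 : ℝ) ≤ k := by exact_mod_cast (show 1 ≤ k by omega)
  have hc0 : P.c 0 ≤ m := P.mono (Nat.zero_le _)
  have hPl := P.hl
  have hPc := P.hc
  have htail : ∀ t, P.tail t ≠ 0 → (∃ i ∈ range (m + 1), φ i = t) ∧
      ((k : ℝ) ^ k)⁻¹ ≤ P.tail t := by
    intro t ht
    by_cases h : t = P.n
    · refine ⟨⟨1, mem_range.2 (by omega), by rw [h, hn]⟩, ?_⟩
      rw [h, P.tail_n]
      exact inv_le_one_of_one_le₀ (one_le_pow₀ hk1)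
    · rw [P.tail_ne h] at ht ⊢
      obtain ⟨u, hu, h1, -, -, h2, i, rfl⟩ := (P.z_cases t).resolve_left ht
      have h3 := P.mono (show u + 1 ≤ NN k P.n from mem_range.1 hu)
      have h4 : i ≤ φ i := hφ.id_le i
      refine ⟨⟨i, mem_range.2 (by omega), rfl⟩, ?_⟩
      rw [h1]
      exact inv_anti₀ (by positivity) (pow_word_le hk _ _)
  have hvec : ∀ t, P.tail t ≠ 0 → P.vec t = P.tail t := by
    intro t ht
    have : t ≠ P.l := fun e => ht (e ▸ P.tail_l)
    rw [P.vec_apply, Pi.single_eq_of_ne this, sub_zero]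
  refine ⟨m, fun i => P.vec (φ i), (range (m + 1)).filter (fun i => P.tail (φ i) ≠ 0),
    fun i => P.abs_vec hk _, fun i hi => ?_, ?_, ?_⟩
  · obtain ⟨h1, h2⟩ := mem_filter.1 hi
    refine ⟨Nat.lt_succ_iff.1 (mem_range.1 h1), ?_⟩
    beta_reduce
    rw [hvec _ h2]
    exact (htail _ h2).2.trans (le_abs_self _)
  · refine lp.norm_le_of_forall_le (by positivity) fun γ => ?_
    rw [sum_xs_apply, sum_single_eq hφ.injective (v := P.vec)]
    · exact fam_vec hk γ P
    · intro t ht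
      by_cases h : P.tail t = 0
      · refine ⟨0, mem_range.2 (by omega), ?_⟩
        by_contra h'
        rw [P.vec_apply, h, hl, Pi.single_eq_of_ne (Ne.symm h'), sub_zero] at ht
        exact ht rfl
      · exact (htail t h).1
  · refine le_trans ?_ (lp.norm_apply_le_norm ENNReal.top_ne_zero _ ⟨Sum.inr P.toData⟩)
    rw [sum_congr rfl (g := fun i => P.tail (φ i) • xs.{u} hk (φ i))
      (fun i hi => by beta_reduce; rw [hvec _ (mem_filter.1 hi).2]), sum_xs_apply,
      sum_single_eq hφ.injective (v := P.tail)]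
    · exact (fn_tail hk P).trans (le_abs_self _)
    · intro t ht
      obtain ⟨i, hi, rfl⟩ := (htail t ht).1
      exact ⟨i, mem_filter.2 ⟨hi, ht⟩, rfl⟩

end Pool.Agent.Work.MP_4833ba_an.Hedge
end
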